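import Pool.Agent.H48.RN.Stmts3

/-!
# Project RN: module IRR

The group `H` is the whole group of units of `F[T]/M`: otherwise a nontrivial Dirichlet character
trivial on `H` would have `a_{rj} = q^{rj} - O(1)`, which contradicts the fact that `-a_j` is a sum
of `j`-th powers of `m - 1` numbers.
-/

set_option autoImplicit false
set_option linter.unusedSectionVars false
set_option linter.unusedVariables false

namespace Pool.RN

open Polynomial

/-- number of elements of the field with `q^j` elements -/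
theorem IRR_card_Fx (F k : Type) [Field F] [Fintype F] [Field k] [Algebra F k] [IsAlgClosed k]
    (j : ℕ) (hj : 1 ≤ j) : (Fx F k j).card = Fintype.card F ^ j := by
  classical
  obtain ⟨p, hp⟩ := CharP.exists F
  have := hp
  have hpp : Fact p.Prime := ⟨CharP.char_is_prime F p⟩
  have : CharP k p := charP_of_injective_algebraMap (algebraMap F k).injective p
  obtain ⟨n, hn, hc⟩ := FiniteField.card F p
  have hdvd : p ∣ Fintype.card F ^ j := by
    refine dvd_pow ?_ (by omega)
    rw [hc]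
    exact dvd_pow_self p n.ne_zero
  have h1 : 1 < Fintype.card F ^ j := Nat.one_lt_pow (by omega) Fintype.one_lt_card
  have hsep : (X ^ (Fintype.card F ^ j) - X : k[X]).Separable := galois_poly_separable p _ hdvd
  unfold Fx
  rw [Multiset.toFinset_card_of_nodup (nodup_roots hsep), IsAlgClosed.card_roots_eq_natDegree,
    FiniteField.X_pow_card_sub_X_natDegree_eq _ h1]

/-- polynomials with a common zero with `M` are not units modulo `M` -/
theorem IRR_not_unit {F k : Type} [Field F] [Field k] [Algebra F k] {M f : F[X]} {x : k}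
    (hM : aeval x M = 0) (hf : aeval x f = 0) : ¬ IsUnit (AdjoinRoot.mk M f) := by
  intro hu
  obtain ⟨v, hv⟩ := hu.exists_right_inv
  obtain ⟨g, rfl⟩ := AdjoinRoot.mk_surjective v
  rw [← map_mul, ← map_one (AdjoinRoot.mk M), AdjoinRoot.mk_eq_mk] at hv
  obtain ⟨h, hh⟩ := hv
  have := congrArg (aeval x) hh
  rw [map_sub, map_mul, map_one, map_mul, hM, hf, zero_mul, zero_mul, zero_sub] at this
  exact one_ne_zero (neg_eq_zero.1 this)

/-- a character trivial on a proper subgroup -/
theorem IRR_char {R : Type} [CommRing R] [Finite R] (H : Subgroup Rˣ) (u : Rˣ) (hu : u ∉ H) :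
    ∃ χ : MulChar R ℂ, χ ≠ 1 ∧ ∀ v ∈ H, χ (v : R) = 1 := by
  have : Finite Rˣ := inferInstance
  have : Finite (Rˣ ⧸ H) := inferInstance
  have : NeZero (Monoid.exponent (Rˣ ⧸ H)) := ⟨fun h0 => by
    have h1 : Monoid.exponent (Rˣ ⧸ H) ∣ Nat.card (Rˣ ⧸ H) := Group.exponent_dvd_nat_card
    rw [h0, zero_dvd_iff] at h1
    exact Nat.card_pos.ne' h1⟩
  have hne : (QuotientGroup.mk u : Rˣ ⧸ H) ≠ 1 := by
    intro h
    exact hu ((QuotientGroup.eq_one_iff u).1 h)
  obtain ⟨φ, hφ⟩ :=
    CommGroup.exists_apply_ne_one_of_hasEnoughRootsOfUnity (Rˣ ⧸ H) ℂ hne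
  refine ⟨MulChar.ofUnitHom (φ.comp (QuotientGroup.mk' H)), ?_, ?_⟩
  · intro h
    have h1 := DFunLike.congr_fun h (u : R)
    rw [MulChar.ofUnitHom_coe, MulChar.one_apply_coe] at h1
    apply hφ
    ext
    exact h1
  · intro v hv
    rw [MulChar.ofUnitHom_coe]
    have : (QuotientGroup.mk' H) v = 1 := (QuotientGroup.eq_one_iff v).2 hv
    rw [MonoidHom.comp_apply, this, map_one]
    rfl

/-- the number of `j` is unbounded: contradiction from power sums -/
theorem IRR_contra (hPWS : S_PWS) (a : ℕ → ℂ) (n : ℕ) (α : Fin n → ℂ) (q r : ℕ) (hq : 2 ≤ q)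
    (hr : 1 ≤ r) (C : ℝ) (h1 : ∀ j, 1 ≤ j → a j = - ∑ i, α i ^ j)
    (h2 : ∀ j, 1 ≤ j → ‖a (r * j) - (q : ℂ) ^ (r * j)‖ ≤ C) : False := by
  have key := hPWS (Option (Fin n)) (fun o => o.elim ((q : ℂ) ^ r) (fun i => α i ^ r)) 1 C one_pos
    (by
      intro j hj
      rw [Fintype.sum_option, one_pow, mul_one]
      have h3 := h2 j hj
      rw [h1 (r * j) (Nat.one_le_iff_ne_zero.2 (Nat.mul_ne_zero (by omega) (by omega)))] at h3
      have h4 : -∑ i, α i ^ (r * j) - (q : ℂ) ^ (r * j) =
          -(((q : ℂ) ^ r) ^ j + ∑ i, (α i ^ r) ^ j) := by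
        rw [← pow_mul]
        simp_rw [← pow_mul]
        ring
      rw [h4, norm_neg] at h3
      exact h3) none
  have h5 : ‖((q : ℂ) ^ r)‖ ≤ 1 := key
  rw [norm_pow, Complex.norm_natCast] at h5
  have h6 : (2 : ℝ) ≤ (q : ℝ) := by exact_mod_cast hq
  have h7 : (2 : ℝ) ≤ (q : ℝ) ^ r := le_trans h6 (le_self_pow₀ (by linarith) (by omega))
  linarith

/-- module IRR -/
theorem s_IRR {F k : Type} [Field F] [Fintype F] [Field k] [Algebra F k] [IsAlgClosed k]
    [Algebra.IsAlgebraic F k] (M : F[X]) (Y : (EE k)[X]) (hM : M.Monic) (hm : 1 ≤ M.natDegree)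
    (hY : Good M Y)
    (hNRH : S_NRH M Y) (hGRP : S_GRP M Y) (hPTS : S_PTS F k) (hNMI : S_NMI F k) (hSZR : S_SZR F)
    (hLGB : S_LGB F) (hNWT : S_NWT) (hPWS : S_PWS) : S_IRR M Y := by
  classical
  intro c hc
  by_contra hno
  push Not at hno
  have hM0 : M ≠ 0 := hM.ne_zero
  have : Module.Finite F (AdjoinRoot M) := (AdjoinRoot.powerBasis hM0).finite
  have : Finite (AdjoinRoot M) := Module.finite_of_finite F
  obtain ⟨_, ⟨g1, hg1, hg1'⟩, hG3, hG4, _⟩ := hGRP
  have hmk : ∀ f g : F[X], M ∣ f - g → AdjoinRoot.mk M f = AdjoinRoot.mk M g := fun f g h =>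
    AdjoinRoot.mk_eq_mk.2 h
  let H : Subgroup (AdjoinRoot M)ˣ :=
    { carrier := {u | ∃ g ∈ HH M Y, (u : AdjoinRoot M) = AdjoinRoot.mk M g}
      mul_mem' := by
        rintro u v ⟨g, hg, hu⟩ ⟨g', hg', hv⟩
        refine ⟨_, hG3 g hg g' hg', ?_⟩
        rw [Units.val_mul, hu, hv, ← map_mul]
        refine (hmk _ _ ?_)
        rw [modByMonic_eq_sub_mul_div (g * g') M]
        exact ⟨(g * g') /ₘ M, by ring⟩
      one_mem' := ⟨g1, hg1, by
        rw [Units.val_one, ← map_one (AdjoinRoot.mk M)]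
        exact (hmk _ _ hg1').symm⟩
      inv_mem' := by
        rintro u ⟨g, hg, hu⟩
        obtain ⟨g', hg', h⟩ := hG4 g hg
        refine ⟨g', hg', ?_⟩
        have h1 := hmk _ _ h
        rw [map_mul, map_one, ← hu] at h1
        exact Units.inv_eq_of_mul_eq_one_right h1 }
  obtain ⟨a, b, hab⟩ := hc
  have hca : AdjoinRoot.mk M c * AdjoinRoot.mk M a = 1 := by
    rw [← map_mul, ← map_one (AdjoinRoot.mk M)]
    apply hmk
    exact ⟨-b, by rw [← hab]; ring⟩
  let uc : (AdjoinRoot M)ˣ := ⟨AdjoinRoot.mk M c, AdjoinRoot.mk M a, hca, by rw [mul_comm]; exact hca⟩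
  have huc : uc ∉ H := by
    rintro ⟨g, hg, h⟩
    exact hno g hg (AdjoinRoot.mk_eq_mk.1 h)
  obtain ⟨χ, hχ, hχH⟩ := IRR_char H uc huc
  -- the power sums
  obtain ⟨α, hα⟩ := hNWT (bb (dir χ)) (aa (dir χ)) M.natDegree hm
    (by
      unfold bb
      have : Mon F 0 = {1} := by
        ext f
        rw [mem_Mon, Finset.mem_singleton]
        constructor
        · rintro ⟨h1, h2⟩
          exact h1.natDegree_eq_zero.1 h2
        · rintro rfl
          exact ⟨monic_one, natDegree_one⟩
      rw [this, Finset.sum_singleton]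
      exact (CMul.dir χ).one)
    (fun n hn => hSZR M hM0 χ hχ n hn)
    (fun n => hLGB (dir χ) (CMul.dir χ) n)
  obtain ⟨r, hr, hN⟩ := hNRH
  refine IRR_contra hPWS (aa (dir χ)) (M.natDegree - 1) α (Fintype.card F) r
    Fintype.one_lt_card hr (M.natDegree : ℝ) hα ?_
  intro j hj
  have hrj : 1 ≤ r * j := Nat.one_le_iff_ne_zero.2 (Nat.mul_ne_zero (by omega) (by omega))
  rw [hPTS (dir χ) (CMul.dir χ) (r * j) hrj]
  -- values at the points
  have hv : ∀ x ∈ Fx F k (r * j), dir χ (nm F x (r * j)) = if aeval x M = 0 then 0 else 1 := by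
    intro x hx
    split_ifs with h0
    · have hz : aeval x (nm F x (r * j)) = 0 := by
        have h1 := (hNMI (r * j) hrj x hx).2
        rw [← eval_map_algebraMap, h1]
        unfold Nrm
        rw [eval_prod]
        refine Finset.prod_eq_zero (Finset.mem_range.2 hrj) ?_
        simp
      exact MulChar.map_nonunit χ (IRR_not_unit h0 hz)
    · obtain ⟨g, hg, hdv⟩ := hN j hj x hx h0
      unfold dir
      rw [hmk _ _ hdv]
      -- mk g is a unit
      obtain ⟨g', hg', h⟩ := hG4 g hg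
      have h1 := hmk _ _ h
      rw [map_mul, map_one] at h1
      exact hχH ⟨AdjoinRoot.mk M g, AdjoinRoot.mk M g', h1, by rw [mul_comm]; exact h1⟩ ⟨g, hg, rfl⟩
  rw [Finset.sum_congr rfl hv]
  have hsum : (∑ x ∈ Fx F k (r * j), if aeval x M = 0 then (0 : ℂ) else 1) =
      (Fintype.card F : ℂ) ^ (r * j) -
        (((Fx F k (r * j)).filter (fun x => aeval x M = 0)).card : ℂ) := by
    have h1 : ∀ x : k, (if aeval x M = 0 then (0 : ℂ) else 1) =
        1 - (if aeval x M = 0 then (1 : ℂ) else 0) := by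
      intro x; split_ifs <;> simp
    simp_rw [h1]
    rw [Finset.sum_sub_distrib, Finset.sum_const, IRR_card_Fx F k _ hrj, Finset.sum_boole]
    simp
  rw [hsum, sub_sub_cancel_left, norm_neg, Complex.norm_natCast]
  have hroots : ((Fx F k (r * j)).filter (fun x => aeval x M = 0)) ⊆
      (M.map (algebraMap F k)).roots.toFinset := by
    intro x hx
    rw [Finset.mem_filter] at hx
    rw [Multiset.mem_toFinset, mem_roots (Polynomial.map_ne_zero hM0), IsRoot.def,
      eval_map_algebraMap]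
    exact hx.2
  have h3 : ((Fx F k (r * j)).filter (fun x => aeval x M = 0)).card ≤ M.natDegree :=
    (Finset.card_le_card hroots).trans ((Multiset.toFinset_card_le _).trans
      ((card_roots' _).trans natDegree_map_le))
  exact_mod_cast h3

end Pool.RN
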